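import Pool.Agent.Helper469_Dupin.JresultC
import Pool.Agent.Helper469_Dupin.Pub

set_option autoImplicit false

/-!
Real analytic Dupin submanifolds have full curvature surfaces: the condition (C) is automatic for them.
-/

open Pool.Agent.H469
open scoped ContDiff

namespace Pool.Agent.Results.MP_f7aa1b_gt.AnalyticFull

/-- the dimension of the principal space of `M` at `z` for `κ` (the principal space is a linear space, so this is
the dimension of its linear span) -/
noncomputable def dimPrincipal {n : ℕ} (M : Set (Eu n)) (z : Eu n × Eu n) (κ : ℝ) : ℕ :=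
  Set.finrank ℝ (principalSpace M z κ)

/-- `ψ`, restricted to `U`, is a topological embedding -/
def EmbeddingOn {d n : ℕ} (U : Set (Eu d)) (ψ : Eu d → Eu n × Eu n) : Prop :=
  Topology.IsEmbedding (fun u : U => ψ u)

/-- Let `M` be a real analytic embedded Dupin submanifold of `R^n` (not necessarily compact), `z` a point of its unit
normal bundle, `κ` a real number and `d` the dimension of the principal space at `z` for `κ`.  Then there is an
embedded connected `d`-dimensional curvature surface through `z` with constant principal curvature `κ`. -/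
theorem result {n m : ℕ} {M : Set (Eu n)} (hM : IsSubmfd ω m M) (hD : Dupin M)
    (z : Eu n × Eu n) (hz : z ∈ unitNormalBundle M) (κ : ℝ) (d : ℕ) (hd : dimPrincipal M z κ = d) :
    ∃ (U : Set (Eu d)) (ψ : Eu d → Eu n × Eu n), IsOpen U ∧ IsConnected U ∧ (0 : Eu d) ∈ U ∧
      ψ 0 = z ∧ EmbeddingOn U ψ ∧ IsCurvSurf M U ψ (fun _ => κ) := by
  obtain ⟨U, ψ, h1, h2, h3, h4, h5, h6⟩ :=
    resultC ((isSubmfd_iff _ _ _).1 hM) ((dupin_iff M).1 hD) z hz κ d hd
  exact ⟨U, ψ, h1, h2, h3, h4, h5, (isCurvSurf_iff M U h1 ψ _).2 h6⟩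

end Pool.Agent.Results.MP_f7aa1b_gt.AnalyticFull
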