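import Pool.Agent.Helper469_Dupin.JresultA
import Pool.Agent.Helper469_Dupin.Pub

set_option autoImplicit false

/-!
Compact Dupin submanifolds (no condition besides Dupin): all Morse distance functions and all Morse
height functions have the same number of critical points of each index.
-/

open Pool.Agent.H469
open scoped ContDiff

namespace Pool.Agent.Results.MP_f7aa1b_gt.MorseNumbers

/-- Let `M` be a compact smooth `m`-dimensional Dupin submanifold of `R^n`, `n ≥ 1`.  There are numbers `c k` with
`c k = c (m - k)` such that every distance or height function that is a Morse function on `M` has finitely many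
critical points, exactly `c k` of them of index `k`; Morse distance functions and Morse height functions exist. -/
theorem result {n m : ℕ} {M : Set (Eu n)} (hn : 0 < n) (hM : IsSubmfd ∞ m M) (hc : IsCompact M)
    (hD : Dupin M) :
    ∃ c : ℕ → ℕ, (∀ k ≤ m, c k = c (m - k)) ∧
      (∀ f : Eu n → ℝ, IsDistOrHeight f → Morse m M f →
        (critSet M f).Finite ∧ ∀ k, numIndex m M f k = c k) ∧
      (∃ p : Eu n, Morse m M (distFun p)) ∧ (∃ u : Eu n, ‖u‖ = 1 ∧ Morse m M (heightFun u)) := by
  obtain ⟨c, h1, h2, ⟨p, h3⟩, ⟨u, h4, h5⟩⟩ :=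
    resultA hn ((isSubmfd_iff _ _ _).1 hM) hc ((dupin_iff M).1 hD)
  refine ⟨c, h1, ?_, ⟨p, (morse_iff _ _ _).2 h3⟩, ⟨u, h4, (morse_iff _ _ _).2 h5⟩⟩
  intro f hf hm
  obtain ⟨h6, h7⟩ := h2 f hf ((morse_iff _ _ _).1 hm)
  exact ⟨h6, fun k => by rw [numIndex_eq]; exact h7 k⟩

end Pool.Agent.Results.MP_f7aa1b_gt.MorseNumbers
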