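import Pool.Agent.Helper469_Dupin.Jdres
import Pool.Agent.Helper469_Dupin.Pub

set_option autoImplicit false

/-!
Compact connected smooth Dupin submanifolds have full curvature surfaces through the points where the principal
space has dimension at most 2 or equal to the dimension of the submanifold: the condition (C) holds there.
-/

open Pool.Agent.H469
open scoped ContDiff

namespace Pool.Agent.Results.MP_f7aa1b_gt.SmallFull

/-- the dimension of the principal space of `M` at `z` for `κ` (the principal space is a linear space, so this is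
the dimension of its linear span) -/
noncomputable def dimPrincipal {n : ℕ} (M : Set (Eu n)) (z : Eu n × Eu n) (κ : ℝ) : ℕ :=
  Set.finrank ℝ (principalSpace M z κ)

/-- `ψ`, restricted to `U`, is a topological embedding -/
def EmbeddingOn {d n : ℕ} (U : Set (Eu d)) (ψ : Eu d → Eu n × Eu n) : Prop :=
  Topology.IsEmbedding (fun u : U => ψ u)

/-- Let `M` be a compact connected smooth `m`-dimensional Dupin submanifold of `R^n`, `z` a point of its unit normal
bundle, `κ` a real number and `d` the dimension of the principal space at `z` for `κ`.  If `d ≤ 2` or `d = m`, then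
there is an embedded connected `d`-dimensional curvature surface through `z` with constant principal
curvature `κ`. -/
theorem result {n m : ℕ} {M : Set (Eu n)} (hM : IsSubmfd ∞ m M) (hc : IsCompact M)
    (hconn : IsConnected M) (hD : Dupin M) (z : Eu n × Eu n) (hz : z ∈ unitNormalBundle M) (κ : ℝ)
    (d : ℕ) (hd : dimPrincipal M z κ = d) (hdm : d ≤ 2 ∨ d = m) :
    ∃ (U : Set (Eu d)) (ψ : Eu d → Eu n × Eu n), IsOpen U ∧ IsConnected U ∧ (0 : Eu d) ∈ U ∧
      ψ 0 = z ∧ EmbeddingOn U ψ ∧ IsCurvSurf M U ψ (fun _ => κ) := by
  obtain ⟨U, ψ, h1, h2, h3, h4, h5, h6⟩ :=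
    resultD ((isSubmfd_iff _ _ _).1 hM) hc hconn.isPreconnected ((dupin_iff M).1 hD) z hz κ d hd hdm
  exact ⟨U, ψ, h1, h2, h3, h4, h5, (isCurvSurf_iff M U h1 ψ _).2 h6⟩

end Pool.Agent.Results.MP_f7aa1b_gt.SmallFull
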