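import Pool.Agent.Helper469_Dupin.Jbres
import Pool.Agent.Helper469_Dupin.Pub

set_option autoImplicit false

/-!
Compact connected Dupin submanifolds (no condition besides Dupin) have the spherical two-piece property.
-/

open Pool.Agent.H469 Metric
open scoped ContDiff InnerProductSpace

namespace Pool.Agent.Results.MP_f7aa1b_gt.SphericalTwoPiece

theorem super_ball {n : ℕ} {M : Set (Eu n)}
    (h : ∀ (p : Eu n × ℝ) (t : ℝ), IsPreconnected {x | x ∈ M ∧ t ≤ fam p x}) (q : Eu n) (r : ℝ) :
    IsPreconnected (M ∩ closedBall q r) ∧ (0 ≤ r → IsPreconnected (M \ ball q r)) := by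
  have hid : ∀ x : Eu n, ‖x - q‖ ^ 2 = ‖x‖ ^ 2 - 2 * ⟪q, x⟫_ℝ + ‖q‖ ^ 2 := by
    intro x
    rw [norm_sub_sq_real, real_inner_comm]
  constructor
  · by_cases hr : r < 0
    · rw [closedBall_eq_empty.2 hr, Set.inter_empty]
      exact isPreconnected_empty
    · push Not at hr
      have h1 := h (q, 1) ((‖q‖ ^ 2 - r ^ 2) / 2)
      convert h1 using 1
      ext x
      simp only [Set.mem_inter_iff, mem_closedBall, Set.mem_ofPred_eq, fam, dist_eq_norm]
      refine and_congr_right fun _ => ?_
      rw [← abs_of_nonneg (norm_nonneg (x - q)), ← abs_of_nonneg hr, ← sq_le_sq, abs_of_nonneg hr,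
        hid]
      constructor <;> intro h2 <;> linarith
  · intro hr
    have h1 := h (-q, -1) ((r ^ 2 - ‖q‖ ^ 2) / 2)
    convert h1 using 1
    ext x
    simp only [Set.mem_sdiff, mem_ball, Set.mem_ofPred_eq, fam, dist_eq_norm, not_lt, inner_neg_left]
    refine and_congr_right fun _ => ?_
    rw [← abs_of_nonneg (norm_nonneg (x - q)), ← abs_of_nonneg hr, ← sq_le_sq, abs_of_nonneg hr,
      hid]
    constructor <;> intro h2 <;> linarith

theorem mono_union {E : Type} [TopologicalSpace E] (A : ℝ → Set E) (B : Set E)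
    (hA : ∀ s, IsPreconnected (A s)) (hmono : Monotone A) (hB : B = ⋃ s, A s) :
    IsPreconnected B := by
  rw [hB]
  rcases Set.eq_empty_or_nonempty (⋃ s, A s) with h | h
  · rw [h]; exact isPreconnected_empty
  · obtain ⟨x, hx⟩ := h
    obtain ⟨s₀, hs₀⟩ := Set.mem_iUnion.1 hx
    have h2 : (⋃ s, A s) = ⋃ s, A (max s s₀) := by
      ext y
      simp only [Set.mem_iUnion]
      constructor
      · rintro ⟨s, hs⟩; exact ⟨s, hmono (le_max_left _ _) hs⟩
      · rintro ⟨s, hs⟩; exact ⟨_, hs⟩
    rw [h2]
    exact isPreconnected_iUnion ⟨x, Set.mem_iInter.2 fun s => hmono (le_max_right _ _) hs₀⟩ fun s => hA _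

/-- Let `M` be a compact connected smooth embedded Dupin submanifold of `R^n`.  Then the parts of `M` in each closed
ball, outside each open ball and in each closed half-space are connected (or empty), and so are the parts in each
open ball, outside each closed ball and in each open half-space. -/
theorem result {n m : ℕ} {M : Set (Eu n)} (hM : IsSubmfd ∞ m M) (hc : IsCompact M)
    (hconn : IsConnected M) (hD : Dupin M) :
    (∀ (q : Eu n) (r : ℝ), IsPreconnected (M ∩ closedBall q r) ∧ IsPreconnected (M \ ball q r) ∧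
      IsPreconnected (M ∩ ball q r) ∧ IsPreconnected (M \ closedBall q r)) ∧
    ∀ (u : Eu n) (t : ℝ), IsPreconnected (M ∩ {x | t ≤ ⟪u, x⟫_ℝ}) ∧
      IsPreconnected (M ∩ {x | t < ⟪u, x⟫_ℝ}) := by
  have h : ∀ (p : Eu n × ℝ) (t : ℝ), IsPreconnected {x | x ∈ M ∧ t ≤ fam p x} :=
    fun p t => resultB ((isSubmfd_iff _ _ _).1 hM) hc hconn.isPreconnected ((dupin_iff M).1 hD) p t
  have hlin : ∀ (u : Eu n) (t : ℝ), IsPreconnected (M ∩ {x | t ≤ ⟪u, x⟫_ℝ}) := by
    intro u t
    have h1 := h (u, 0) t
    convert h1 using 1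
    ext x
    simp only [Set.mem_inter_iff, Set.mem_ofPred_eq, fam]
    refine and_congr_right fun _ => ?_
    constructor <;> intro h2 <;> linarith
  have hout : ∀ (q : Eu n) (r : ℝ), IsPreconnected (M \ ball q r) := by
    intro q r
    by_cases hr : 0 ≤ r
    · exact (super_ball h q r).2 hr
    · rw [ball_eq_empty.2 (by linarith [not_le.1 hr]), Set.sdiff_empty]
      exact hconn.isPreconnected
  refine ⟨fun q r => ⟨(super_ball h q r).1, hout q r, ?_, ?_⟩, fun u t => ⟨hlin u t, ?_⟩⟩
  · apply mono_union (fun s => M ∩ closedBall q (r - Real.exp (-s)))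
    · exact fun s => (super_ball h q _).1
    · intro s t hst
      refine Set.inter_subset_inter_right _ (closedBall_subset_closedBall ?_)
      have : Real.exp (-t) ≤ Real.exp (-s) := Real.exp_le_exp.2 (by linarith)
      linarith
    · ext x
      simp only [Set.mem_inter_iff, mem_ball, Set.mem_iUnion, mem_closedBall]
      constructor
      · rintro ⟨h1, h2⟩
        refine ⟨-Real.log (r - dist x q), h1, ?_⟩
        rw [neg_neg, Real.exp_log (by linarith)]
        linarith
      · rintro ⟨s, h1, h2⟩
        exact ⟨h1, by linarith [Real.exp_pos (-s)]⟩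
  · apply mono_union (fun s => M \ ball q (r + Real.exp (-s)))
    · exact fun s => hout q _
    · intro s t hst
      refine Set.sdiff_subset_sdiff_right (ball_subset_ball ?_)
      have : Real.exp (-t) ≤ Real.exp (-s) := Real.exp_le_exp.2 (by linarith)
      linarith
    · ext x
      simp only [Set.mem_sdiff, mem_ball, Set.mem_iUnion, mem_closedBall, not_le, not_lt]
      constructor
      · rintro ⟨h1, h2⟩
        refine ⟨-Real.log (dist x q - r), h1, ?_⟩
        rw [neg_neg, Real.exp_log (by linarith)]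
        linarith
      · rintro ⟨s, h1, h2⟩
        exact ⟨h1, by linarith [Real.exp_pos (-s)]⟩
  · apply mono_union (fun s => M ∩ {x | t + Real.exp (-s) ≤ ⟪u, x⟫_ℝ})
    · exact fun s => hlin u _
    · intro s t' hst
      refine Set.inter_subset_inter_right _ ?_
      intro x hx
      have : Real.exp (-t') ≤ Real.exp (-s) := Real.exp_le_exp.2 (by linarith)
      simp only [Set.mem_ofPred_eq] at hx ⊢
      linarith
    · ext x
      simp only [Set.mem_inter_iff, Set.mem_iUnion, Set.mem_ofPred_eq]
      constructor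
      · rintro ⟨h1, h2⟩
        refine ⟨-Real.log (⟪u, x⟫_ℝ - t), h1, ?_⟩
        rw [neg_neg, Real.exp_log (by linarith)]
        linarith
      · rintro ⟨s, h1, h2⟩
        exact ⟨h1, by linarith [Real.exp_pos (-s)]⟩

end Pool.Agent.Results.MP_f7aa1b_gt.SphericalTwoPiece
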